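import Mathlib
import Pool.Agent.H65.RegTri
import Pool.Agent.H65.LexWeights
import Pool.Agent.H65.Levels
import Pool.Agent.H65.Cake

/-!
# Graded lecture hall order polytopes have regular unimodular triangulations

Let `P` be a finite poset with a nonnegative rank function `ρ` (strictly increasing, and increasing
by one along covers) and `s = ρ + 1`.  Then the `s`-lecture hall order polytope `O(P, s)` has a
regular unimodular triangulation.  This is the Brändén-Leander question.
-/

namespace Pool.Agent.Results.MP_c39498_co.RegularUnimodular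

open Finset

/-- The `s`-lecture hall order polytope `O(P, s)`. -/
def lectureHallOrderPolytope {P : Type*} [PartialOrder P] (s : P → ℕ) : Set (P → ℝ) :=
  {f | (∀ x y, x < y → f x / (s x : ℝ) ≤ f y / (s y : ℝ)) ∧
    ∀ x, 0 ≤ f x / (s x : ℝ) ∧ f x / (s x : ℝ) ≤ 1}

/-- Points of the lattice `ℤ^P`. -/
def IsLatticePoint {P : Type*} (v : P → ℝ) : Prop := ∀ x, ∃ z : ℤ, v x = z

open Classical in
/-- A simplex (given by its finite vertex set) with vertices in `ℤ^P` and normalized volume `1`: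
the vertices can be enumerated as `v_i`, `i ∈ Option P` (there are `|P| + 1` of them), and the
determinant of the matrix with rows `(1, v_i)`, which is the normalized volume up to sign,
has absolute value `1`. -/
def IsUnimodularSimplex {P : Type*} [Fintype P] (S : Finset (P → ℝ)) : Prop :=
  (∀ v ∈ S, IsLatticePoint v) ∧
    ∃ e : Option P ≃ S,
      |(Matrix.of fun i j : Option P => j.elim (1 : ℝ) (fun x => (e i : P → ℝ) x)).det| = 1

/-- `K` is the regular subdivision of the lattice points of `Q` induced by some height function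
`ω`: the faces of `K` are exactly the projections of the (nonempty) lower faces of the lifted
configuration `{(v, ω v) : v ∈ Q ∩ ℤ^P}`, a lower face being the contact set of an affine function
lying below `ω` on the configuration. -/
def IsRegular {P : Type*} (K : Geometry.SimplicialComplex ℝ (P → ℝ)) (Q : Set (P → ℝ)) : Prop :=
  ∃ ω : (P → ℝ) → ℝ, ∀ S : Finset (P → ℝ), S ∈ K.faces ↔
    S.Nonempty ∧ ∃ l : (P → ℝ) →ᵃ[ℝ] ℝ,
      (∀ v, v ∈ Q → IsLatticePoint v → l v ≤ ω v) ∧
      ∀ v, v ∈ S ↔ (v ∈ Q ∧ IsLatticePoint v ∧ l v = ω v)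

open Pool.Agent.H65.RegTri Pool.Agent.H65.Levels Pool.Agent.H65.Cake

section Proof

variable {P : Type*} [PartialOrder P] [Fintype P]

lemma poly_eq (ρ : P → ℕ) : lectureHallOrderPolytope (fun x => ρ x + 1) = Q ρ := by
  ext f
  unfold lectureHallOrderPolytope Q
  have hpos : ∀ x, (0 : ℝ) < ((ρ x + 1 : ℕ) : ℝ) := fun x => by positivity
  simp only [Set.mem_ofPred_eq]
  constructor
  · rintro ⟨h1, h2⟩
    refine ⟨fun x y hxy => ?_, fun x => ?_⟩
    · have := h1 x y hxy
      rw [div_le_div_iff₀ (hpos x) (hpos y)] at this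
      push_cast at this
      exact this
    · obtain ⟨h3, h4⟩ := h2 x
      rw [div_le_one (hpos x)] at h4
      have h5 := mul_nonneg h3 (hpos x).le
      rw [div_mul_cancel₀ _ (hpos x).ne'] at h5
      push_cast at h4
      exact ⟨h5, h4⟩
  · rintro ⟨h1, h2⟩
    refine ⟨fun x y hxy => ?_, fun x => ?_⟩
    · rw [div_le_div_iff₀ (hpos x) (hpos y)]
      push_cast
      exact h1 x y hxy
    · refine ⟨div_nonneg (h2 x).1 (hpos x).le, ?_⟩
      rw [div_le_one (hpos x)]
      push_cast
      exact (h2 x).2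

/-- all pairs `(x, i)` of interest -/
def pairs (P : Type*) [Fintype P] (R : ℕ) : Finset (P × ℕ) := univ ×ˢ range (R + 1)

/-- size of the filter of a lattice point -/
noncomputable def size (ρ : P → ℕ) (R : ℕ) (v : P → ℝ) : ℝ :=
  ∑ a ∈ pairs P R, chi ρ v a.1 a.2

lemma mem_pairs {R : ℕ} {x : P} {i : ℕ} (h : i < R + 1) : (x, i) ∈ pairs P R := by
  unfold pairs
  rw [Finset.mem_product]
  exact ⟨Finset.mem_univ _, Finset.mem_range.2 h⟩

/-- the filter of a lattice point -/
noncomputable def filt (ρ : P → ℕ) (R : ℕ) (v : P → ℝ) : Finset (P × ℕ) := by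
  classical
  exact (pairs P R).filter (fun a => chi ρ v a.1 a.2 = 1)

lemma mem_filt {ρ : P → ℕ} {R : ℕ} {v : P → ℝ} {a : P × ℕ} :
    a ∈ filt ρ R v ↔ a ∈ pairs P R ∧ chi ρ v a.1 a.2 = 1 := by
  classical
  unfold filt
  rw [Finset.mem_filter]

lemma filt_injOn {ρ : P → ℕ} {R : ℕ} (hR : ∀ x, ρ x ≤ R) {v w : P → ℝ} (hv : v ∈ V ρ)
    (hw : w ∈ V ρ) (h : filt ρ R v = filt ρ R w) : v = w := by
  funext x
  rw [← chi_sum hv x, ← chi_sum hw x]
  apply Finset.sum_congr rfl
  intro i hi
  have hi' : i < R + 1 := by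
    have := Finset.mem_range.1 hi
    have := hR x
    omega
  have h1 : (x, i) ∈ filt ρ R v ↔ (x, i) ∈ filt ρ R w := by rw [h]
  rw [mem_filt, mem_filt] at h1
  have h2 := mem_pairs (x := x) hi'
  simp only [h2, true_and] at h1
  rcases chi_zero_or_one ρ v x i with h3 | h3
  · rcases chi_zero_or_one ρ w x i with h4 | h4
    · rw [h3, h4]
    · have := h1.2 h4
      rw [h3] at this
      norm_num at this
  · rw [h3, h1.1 h3]

/-- a signed measure on superlevel points with vanishing levels is zero -/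
lemma chain_unique {ρ : P → ℕ} {R : ℕ} (hR : ∀ x, ρ x ≤ R) {σ : P → ℕ → ℝ}
    (f : (P → ℝ) → ℝ)
    (hsupp : ∀ v ∈ V ρ, f v ≠ 0 → ∀ a ∈ pairs P R, ∀ b ∈ pairs P R, σ a.1 a.2 ≤ σ b.1 b.2 →
      chi ρ v a.1 a.2 = 1 → chi ρ v b.1 b.2 = 1)
    (hsum : ∑ v ∈ V ρ, f v = 0)
    (hlev : ∀ a ∈ pairs P R, ∑ v ∈ V ρ, f v * chi ρ v a.1 a.2 = 0) :
    ∀ v ∈ V ρ, f v = 0 := by
  classical
  by_contra hcon
  push Not at hcon
  let D := (V ρ).filter (fun v => f v ≠ 0)
  have hD : D.Nonempty := by
    obtain ⟨v, hv, hne⟩ := hcon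
    exact ⟨v, Finset.mem_filter.2 ⟨hv, hne⟩⟩
  obtain ⟨v, hvD, hmax⟩ := Finset.exists_max_image D (fun v => (filt ρ R v).card) hD
  obtain ⟨hvV, hvne⟩ := Finset.mem_filter.1 hvD
  rcases (filt ρ R v).eq_empty_or_nonempty with hemp | hne
  · have h1 : ∑ w ∈ V ρ, f w = f v := by
      apply Finset.sum_eq_single_of_mem v hvV
      intro w hw hwv
      by_contra hfw
      have h2 := hmax w (Finset.mem_filter.2 ⟨hw, hfw⟩)
      rw [hemp, Finset.card_empty, Nat.le_zero, Finset.card_eq_zero] at h2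
      exact hwv (filt_injOn hR hw hvV (h2.trans hemp.symm))
    rw [h1] at hsum
    exact hvne hsum
  · obtain ⟨a, ha, hmin⟩ := Finset.exists_min_image (filt ρ R v) (fun a => σ a.1 a.2) hne
    obtain ⟨haA, hav⟩ := mem_filt.1 ha
    have h1 : ∑ w ∈ V ρ, f w * chi ρ w a.1 a.2 = f v := by
      rw [Finset.sum_eq_single_of_mem v hvV]
      · rw [hav, mul_one]
      · intro w hw hwv
        by_contra hfw
        have hfw1 : f w ≠ 0 := fun h => hfw (by rw [h, zero_mul])
        have hfw2 : chi ρ w a.1 a.2 = 1 := by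
          rcases chi_zero_or_one ρ w a.1 a.2 with h | h
          · exact absurd (by rw [h, mul_zero]) hfw
          · exact h
        have hsub : filt ρ R v ⊆ filt ρ R w := by
          intro b hb
          obtain ⟨hbA, _⟩ := mem_filt.1 hb
          exact mem_filt.2 ⟨hbA, hsupp w hw hfw1 a haA b hbA (hmin b hb) hfw2⟩
        have heq := Finset.eq_of_subset_of_card_le hsub
          (hmax w (Finset.mem_filter.2 ⟨hw, hfw1⟩))
        exact hwv (filt_injOn hR hw hvV heq.symm)
    rw [hlev a haA] at h1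
    exact hvne h1.symm

/-- the lexicographic objectives: levels from top to bottom, then the squared size -/
noncomputable def obj (ρ : P → ℕ) (R : ℕ) (j : ℕ) (v : P → ℝ) : ℝ :=
  if j ≤ R then ∑ x, chi ρ v x (R - j) else (size ρ R v) ^ 2

lemma cost_obj_le {ρ : P → ℕ} {R j : ℕ} (hj : j ≤ R) (w : (P → ℝ) → ℝ) :
    cost (V ρ) (obj ρ R j) w = ∑ x, levels ρ w x (R - j) := by
  unfold cost obj levels
  rw [Finset.sum_comm]
  apply Finset.sum_congr rfl
  intro v _
  rw [if_pos hj, Finset.mul_sum]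

lemma cost_obj_top {ρ : P → ℕ} {R : ℕ} (w : (P → ℝ) → ℝ) :
    cost (V ρ) (obj ρ R (R + 1)) w = ∑ a ∈ pairs P R, ∑ b ∈ pairs P R,
      ∑ v ∈ V ρ, w v * (chi ρ v a.1 a.2 * chi ρ v b.1 b.2) := by
  unfold cost obj size
  have h1 : ∀ v ∈ V ρ, (w v * if R + 1 ≤ R then ∑ x, chi ρ v x (R - (R + 1)) else
      (∑ a ∈ pairs P R, chi ρ v a.1 a.2) ^ 2) =
      ∑ a ∈ pairs P R, ∑ b ∈ pairs P R, w v * (chi ρ v a.1 a.2 * chi ρ v b.1 b.2) := by
    intro v _
    rw [if_neg (by omega), pow_two, Finset.sum_mul_sum, Finset.mul_sum]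
    apply Finset.sum_congr rfl
    intro a _
    rw [Finset.mul_sum]
  rw [Finset.sum_congr rfl h1, Finset.sum_comm]
  apply Finset.sum_congr rfl
  intro a _
  rw [Finset.sum_comm]

section Main

variable {ρ : P → ℕ} (hρ : ∀ x y : P, x < y → ρ x < ρ y)
  (hcov : ∀ x y : P, x ⋖ y → ρ y = ρ x + 1) {R : ℕ} (hR : ∀ x, ρ x ≤ R)

include hρ hcov hR

lemma feas_of_mem {p : P → ℝ} (hp : p ∈ Q ρ) : Feas ρ (R + 1) p (fun _ => 1) := by
  refine ⟨?_, ?_, ?_⟩
  · intro x y hxy
    rw [lev_top hR, lev_top hR]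
    push_cast
    exact hp.1 x y hxy
  · intro x; exact (hp.2 x).1
  · intro x
    rw [lev_top hR, mul_one]
    push_cast
    exact (hp.2 x).2

lemma exists_section {p : P → ℝ} (hp : p ∈ Q ρ) :
    ∃ σ : P → ℕ → ℝ, Sol ρ (R + 1) p (fun _ => 1) σ ∧
      (∀ U, Sol ρ (R + 1) p (fun _ => 1) U → (∀ x i, U x i = σ x i) ∨ ∃ i < R + 1,
        (∀ k, i < k → k < R + 1 → ∀ x, U x k = σ x k) ∧ (∀ x, U x i ≤ σ x i) ∧
        ∃ x, U x i < σ x i) ∧
      (∀ c : ℕ, 0 < c → (∀ x, ∃ z : ℤ, (c : ℝ) * p x = z) →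
        ∀ x i, ∃ z : ℤ, (c : ℝ) * σ x i = z) := by
  obtain ⟨σ, h1, h2, h3⟩ := exists_levels hρ hcov (R + 1) p (fun _ => 1)
    (feas_of_mem hρ hcov hR hp)
  exact ⟨σ, h1, h2, fun c hc hcp => h3 c hc hcp (fun _ => ⟨c, by simp⟩)⟩

lemma mem_Q_of_rep {p : P → ℝ} {w} (hw : IsRep (V ρ) p w) : p ∈ Q ρ := by
  have h1 := mem_convexHull_of_isRep hw
  have h2 : convexHull ℝ (V ρ : Set (P → ℝ)) ⊆ Q ρ :=
    convexHull_min (fun v hv => (mem_V.1 (Finset.mem_coe.1 hv)).1) (convex_Q ρ)
  exact h2 h1

/-- canonical representation -/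
lemma exists_canonical {p : P → ℝ} (hp : p ∈ Q ρ) :
    ∃ κ : (P → ℝ) → ℝ, IsRep (V ρ) p κ ∧
      (∀ w, IsRep (V ρ) p w → (∀ v ∈ V ρ, w v = κ v) ∨
        ∃ k < R + 2, (∀ j < k, cost (V ρ) (obj ρ R j) w = cost (V ρ) (obj ρ R j) κ) ∧
          cost (V ρ) (obj ρ R k) w < cost (V ρ) (obj ρ R k) κ) ∧
      (∀ N : ℕ, 0 < N → IsLat ((N : ℝ) • p) → ∀ v ∈ V ρ, ∃ z : ℤ, (N : ℝ) * κ v = z) := by
  classical
  obtain ⟨σ, hσ, hlex, hint⟩ := exists_section hρ hcov hR hp
  refine ⟨kap ρ σ, kap_rep hρ hR hσ, ?_, ?_⟩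
  · intro w hw
    have hsol := levels_sol hρ hcov hR hw
    have hκ : ∀ x i, levels ρ (kap ρ σ) x i = σ x i := kap_chi hρ hR hσ
    rcases hlex _ hsol with hall | ⟨i, hi, h1, h2, x, h3⟩
    · -- same levels: compare squared sizes
      have hle : ∀ a ∈ pairs P R, ∀ b ∈ pairs P R,
          ∑ v ∈ V ρ, w v * (chi ρ v a.1 a.2 * chi ρ v b.1 b.2) ≤ min (σ a.1 a.2) (σ b.1 b.2) := by
        intro a _ b _
        apply le_min
        · rw [← hall a.1 a.2]
          apply Finset.sum_le_sum
          intro v hv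
          apply mul_le_mul_of_nonneg_left _ (hw.nonneg v hv)
          have := mul_le_mul_of_nonneg_left (chi_le_one ρ v b.1 b.2) (chi_nonneg ρ v a.1 a.2)
          linarith
        · rw [← hall b.1 b.2]
          apply Finset.sum_le_sum
          intro v hv
          apply mul_le_mul_of_nonneg_left _ (hw.nonneg v hv)
          have := mul_le_mul_of_nonneg_right (chi_le_one ρ v a.1 a.2) (chi_nonneg ρ v b.1 b.2)
          linarith
      by_cases heq : ∀ a ∈ pairs P R, ∀ b ∈ pairs P R,
          ∑ v ∈ V ρ, w v * (chi ρ v a.1 a.2 * chi ρ v b.1 b.2) = min (σ a.1 a.2) (σ b.1 b.2)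
      · left
        -- both are supported on superlevel points
        have hsup : ∀ u : (P → ℝ) → ℝ, (∀ v ∈ V ρ, 0 ≤ u v) →
            (∀ x i, levels ρ u x i = σ x i) →
            (∀ a ∈ pairs P R, ∀ b ∈ pairs P R,
              ∑ v ∈ V ρ, u v * (chi ρ v a.1 a.2 * chi ρ v b.1 b.2) =
                min (σ a.1 a.2) (σ b.1 b.2)) →
            ∀ v ∈ V ρ, u v ≠ 0 → ∀ a ∈ pairs P R, ∀ b ∈ pairs P R,
              σ a.1 a.2 ≤ σ b.1 b.2 → chi ρ v a.1 a.2 = 1 → chi ρ v b.1 b.2 = 1 := by
          intro u hu0 hul hup v hv huv a ha b hb hab hva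
          by_contra hvb
          have hvb' : chi ρ v b.1 b.2 = 0 := by
            rcases chi_zero_or_one ρ v b.1 b.2 with h | h
            · exact h
            · exact absurd h hvb
          have h5 := hup a ha b hb
          rw [min_eq_left hab, ← hul a.1 a.2] at h5
          have h6 : ∑ v ∈ V ρ, u v * (chi ρ v a.1 a.2 * (1 - chi ρ v b.1 b.2)) = 0 := by
            have : ∀ v ∈ V ρ, u v * (chi ρ v a.1 a.2 * (1 - chi ρ v b.1 b.2)) =
                u v * chi ρ v a.1 a.2 - u v * (chi ρ v a.1 a.2 * chi ρ v b.1 b.2) := by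
              intro v _; ring
            rw [Finset.sum_congr rfl this, Finset.sum_sub_distrib, h5]
            unfold levels
            rw [sub_self]
          rw [Finset.sum_eq_zero_iff_of_nonneg] at h6
          · have h7 := h6 v hv
            rw [hva, hvb'] at h7
            simp at h7
            exact huv h7
          · intro v hv
            apply mul_nonneg (hu0 v hv)
            apply mul_nonneg (chi_nonneg _ _ _ _)
            linarith [chi_le_one ρ v b.1 b.2]
        have hs1 := hsup w hw.nonneg hall heq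
        have hs2 := hsup (kap ρ σ) (fun v _ => kap_nonneg v) hκ
          (fun a _ b _ => kap_pair hρ hR hσ a.1 b.1 a.2 b.2)
        have hzero := chain_unique (ρ := ρ) hR (σ := σ) (fun v => w v - kap ρ σ v)
          (by
            intro v hv hne a ha b hb hab hva
            by_cases hwv : w v = 0
            · have : kap ρ σ v ≠ 0 := fun h => hne (by rw [hwv, h, sub_zero])
              exact hs2 v hv this a ha b hb hab hva
            · exact hs1 v hv hwv a ha b hb hab hva)
          (by rw [Finset.sum_sub_distrib, hw.sum_one, kap_sum_one hρ hR hσ, sub_self])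
          (by
            intro a _
            have h8 : ∑ v ∈ V ρ, (w v - kap ρ σ v) * chi ρ v a.1 a.2 =
                levels ρ w a.1 a.2 - levels ρ (kap ρ σ) a.1 a.2 := by
              unfold levels
              rw [← Finset.sum_sub_distrib]
              apply Finset.sum_congr rfl
              intro v _; ring
            rw [h8, hall, hκ, sub_self])
        intro v hv
        have := hzero v hv
        linarith
      · right
        push Not at heq
        obtain ⟨a0, ha0, b0, hb0, hne⟩ := heq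
        refine ⟨R + 1, by omega, ?_, ?_⟩
        · intro j hj
          rw [cost_obj_le (by omega), cost_obj_le (by omega)]
          apply Finset.sum_congr rfl
          intro x _
          rw [hall, hκ]
        · rw [cost_obj_top, cost_obj_top]
          have hpair : ∀ a b : P × ℕ,
              ∑ v ∈ V ρ, kap ρ σ v * (chi ρ v a.1 a.2 * chi ρ v b.1 b.2) =
                min (σ a.1 a.2) (σ b.1 b.2) := fun a b => kap_pair hρ hR hσ a.1 b.1 a.2 b.2
          apply Finset.sum_lt_sum
          · intro a ha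
            apply Finset.sum_le_sum
            intro b hb
            rw [hpair]
            exact hle a ha b hb
          · refine ⟨a0, ha0, ?_⟩
            apply Finset.sum_lt_sum
            · intro b hb
              rw [hpair]
              exact hle a0 ha0 b hb
            · refine ⟨b0, hb0, ?_⟩
              rw [hpair]
              exact lt_of_le_of_ne (hle a0 ha0 b0 hb0) hne
    · right
      refine ⟨R - i, by omega, ?_, ?_⟩
      · intro j hj
        rw [cost_obj_le (by omega), cost_obj_le (by omega)]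
        apply Finset.sum_congr rfl
        intro y _
        rw [hκ]
        exact h1 (R - j) (by omega) (by omega) y
      · rw [cost_obj_le (by omega), cost_obj_le (by omega)]
        have : R - (R - i) = i := by omega
        rw [this]
        apply Finset.sum_lt_sum
        · intro y _
          rw [hκ]
          exact h2 y
        · exact ⟨x, Finset.mem_univ _, by rw [hκ]; exact h3⟩
  · intro N hN hlat v _
    exact kap_integral hρ hR hσ hN (hint N hN (fun x => by
      obtain ⟨z, hz⟩ := hlat x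
      exact ⟨z, by rw [← hz]; simp⟩)) v

lemma hull_eq : convexHull ℝ (V ρ : Set (P → ℝ)) = Q ρ := by
  apply Set.Subset.antisymm
  · exact convexHull_min (fun v hv => (mem_V.1 (Finset.mem_coe.1 hv)).1) (convex_Q ρ)
  · intro p hp
    obtain ⟨κ, hκ, _⟩ := exists_canonical hρ hcov hR hp
    exact mem_convexHull_of_isRep hκ

lemma span_V : affineSpan ℝ (V ρ : Set (P → ℝ)) = ⊤ := by
  apply affineSpan_eq_top_of_nonempty_interior
  rw [hull_eq hρ hcov hR]
  have hpos : (0 : ℝ) < (R : ℝ) + 2 := by positivity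
  set δ : ℝ := 1 / (2 * ((R : ℝ) + 2)) with hδ
  have hδpos : 0 < δ := by positivity
  have hδ2 : δ * (2 * ((R : ℝ) + 2)) = 1 := by rw [hδ]; field_simp
  let c : P → ℝ := fun x => ((ρ x : ℝ) + 1) * (((ρ x : ℝ) + 1) / ((R : ℝ) + 2))
  refine ⟨c, mem_interior_iff_mem_nhds.2 (Filter.mem_of_superset
    (Metric.ball_mem_nhds c hδpos) ?_)⟩
  intro f hf
  rw [Metric.mem_ball] at hf
  have hfx : ∀ x, |f x - c x| < δ := by
    intro x
    have := (dist_pi_lt_iff hδpos).1 hf x
    rwa [Real.dist_eq] at this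
  have hs : ∀ x, (1 : ℝ) ≤ (ρ x : ℝ) + 1 := fun x => by
    have : (0 : ℝ) ≤ ρ x := by positivity
    linarith
  -- normalised coordinates
  have hnorm : ∀ x, ((ρ x : ℝ) + 1) / ((R : ℝ) + 2) - δ ≤ f x / ((ρ x : ℝ) + 1) ∧
      f x / ((ρ x : ℝ) + 1) ≤ ((ρ x : ℝ) + 1) / ((R : ℝ) + 2) + δ := by
    intro x
    have h1 := abs_lt.1 (hfx x)
    have hsx := hs x
    have hsx' : (0 : ℝ) < (ρ x : ℝ) + 1 := by linarith
    constructor
    · rw [le_div_iff₀ hsx']
      have : c x = ((ρ x : ℝ) + 1) / ((R : ℝ) + 2) * ((ρ x : ℝ) + 1) := by simp only [c]; ring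
      rw [sub_mul, ← this]
      nlinarith
    · rw [div_le_iff₀ hsx']
      have : c x = ((ρ x : ℝ) + 1) / ((R : ℝ) + 2) * ((ρ x : ℝ) + 1) := by simp only [c]; ring
      rw [add_mul, ← this]
      nlinarith
  have hδ3 : δ + δ = 1 / ((R : ℝ) + 2) := by rw [hδ]; field_simp; ring
  refine ⟨fun x y hxy => ?_, fun x => ?_⟩
  · have h1 := (hnorm x).2
    have h2 := (hnorm y).1
    have hxy' : (ρ x : ℝ) + 1 ≤ ρ y := by exact_mod_cast hρ x y hxy
    have h3 : ((ρ x : ℝ) + 1) / ((R : ℝ) + 2) + 1 / ((R : ℝ) + 2) ≤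
        ((ρ y : ℝ) + 1) / ((R : ℝ) + 2) := by
      rw [← add_div]
      gcongr
    have h4 : f x / ((ρ x : ℝ) + 1) ≤ f y / ((ρ y : ℝ) + 1) := by linarith
    have hsx : (0 : ℝ) < (ρ x : ℝ) + 1 := by linarith [hs x]
    have hsy : (0 : ℝ) < (ρ y : ℝ) + 1 := by linarith [hs y]
    rw [div_le_div_iff₀ hsx hsy] at h4
    exact h4
  · have h1 := (hnorm x).1
    have h2 := (hnorm x).2
    have hsx : (0 : ℝ) < (ρ x : ℝ) + 1 := by linarith [hs x]
    have h3 : 1 / ((R : ℝ) + 2) ≤ ((ρ x : ℝ) + 1) / ((R : ℝ) + 2) := by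
      gcongr
      exact hs x
    have h4 : ((ρ x : ℝ) + 1) / ((R : ℝ) + 2) + 1 / ((R : ℝ) + 2) ≤ 1 := by
      rw [← add_div, div_le_one hpos]
      have : (ρ x : ℝ) ≤ R := by exact_mod_cast hR x
      linarith
    constructor
    · have h5 : 0 ≤ f x / ((ρ x : ℝ) + 1) := by linarith
      have h6 := mul_nonneg h5 hsx.le
      rwa [div_mul_cancel₀ _ hsx.ne'] at h6
    · have h5 : f x / ((ρ x : ℝ) + 1) ≤ 1 := by linarith
      rwa [div_le_one hsx] at h5

end Main

end Proof

/-- **Regular unimodular triangulations of graded lecture hall order polytopes.**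
Let `P` be a finite poset with a nonnegative (natural-number valued) rank function `ρ`, i.e.
`ρ x < ρ y` whenever `x < y` and `ρ y = ρ x + 1` whenever `y` covers `x`, and let `s = ρ + 1`.
Then the lecture hall order polytope `O(P, s)` has a regular unimodular triangulation. -/
theorem result {P : Type*} [Fintype P] [PartialOrder P] (ρ : P → ℕ)
    (hρ : ∀ x y : P, x < y → ρ x < ρ y)
    (hcov : ∀ x y : P, x ⋖ y → ρ y = ρ x + 1) :
    ∃ K : Geometry.SimplicialComplex ℝ (P → ℝ),
      K.space = lectureHallOrderPolytope (fun x => ρ x + 1) ∧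
      (∀ S ∈ K.facets, IsUnimodularSimplex S) ∧
      (∀ S ∈ K.faces, ∃ T ∈ K.facets, S ⊆ T) ∧
      IsRegular K (lectureHallOrderPolytope (fun x => ρ x + 1)) := by
  classical
  -- a bound on the ranks
  let R : ℕ := ∑ x, ρ x
  have hR : ∀ x, ρ x ≤ R := fun x =>
    Finset.single_le_sum (f := fun x => ρ x) (fun _ _ => Nat.zero_le _) (Finset.mem_univ x)
  -- canonical representations
  let κ : (P → ℝ) → (P → ℝ) → ℝ := fun p =>
    if hp : p ∈ Q ρ then (exists_canonical hρ hcov hR hp).choose else 0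
  have hκ : ∀ p (hp : p ∈ Q ρ), κ p = (exists_canonical hρ hcov hR hp).choose := by
    intro p hp; simp only [κ]; rw [dif_pos hp]
  obtain ⟨ω, hω⟩ := exists_height (V ρ) (R + 2) (obj ρ R) κ
    (by
      intro p w hw
      have hp := mem_Q_of_rep hρ hcov hR hw
      rw [hκ p hp]
      exact (exists_canonical hρ hcov hR hp).choose_spec.1)
    (by
      intro p w hw
      have hp := mem_Q_of_rep hρ hcov hR hw
      rw [hκ p hp]
      exact (exists_canonical hρ hcov hR hp).choose_spec.2.1 w hw)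
  have hU : UniqueMin (V ρ) ω := by
    intro p w w' h h' v hv
    rw [hω p w h v hv, hω p w' h' v hv]
  have hI : IntMin (V ρ) ω := by
    intro p w N hN h hlat v hv
    have hp := mem_Q_of_rep hρ hcov hR h.1
    rw [hω p w h v hv, hκ p hp]
    exact (exists_canonical hρ hcov hR hp).choose_spec.2.2 N hN hlat v hv
  have hspan := span_V hρ hcov hR
  have hlatV : ∀ v ∈ V ρ, IsLat v := fun v hv => (mem_V.1 hv).2
  refine ⟨complex (V ρ) ω hU, ?_, ?_, ?_, ?_⟩
  · rw [complex_space hU hspan, hull_eq hρ hcov hR, poly_eq]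
  · intro S hS
    have hSV : S ⊆ V ρ := by
      obtain ⟨⟨_, l, _, rfl⟩, _⟩ := hS
      exact touch_subset
    refine ⟨fun v hv => hlatV v (hSV hv), ?_⟩
    have hcard := facet_card hU hspan hS
    have e : Option P ≃ S := Fintype.equivOfCardEq (by
      rw [Fintype.card_option, Fintype.card_coe, hcard])
    refine ⟨e, ?_⟩
    exact abs_det_eq_one S (fun v hv => hlatV v (hSV hv))
      (fun z hz => facet_int hU hI hlatV hspan hS z hz) e
  · intro S hS
    obtain ⟨⟨v, hv⟩, l, hl, rfl⟩ := hS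
    have hrep : IsRep (V ρ) v (fun u => if u = v then 1 else 0) := by
      refine ⟨fun u _ => ?_, ?_, ?_⟩
      · show (0 : ℝ) ≤ if u = v then 1 else 0
        split_ifs <;> norm_num
      · rw [Finset.sum_ite_eq' (V ρ) v]; simp [touch_subset hv]
      · simp only [ite_smul, one_smul, zero_smul]
        rw [Finset.sum_ite_eq' (V ρ) v]; simp [touch_subset hv]
    obtain ⟨l', hl', hsp', hsub, _⟩ := spanning_above hU hspan hrep _ l hl (le_refl _)
    refine ⟨touch (V ρ) ω l', ⟨⟨⟨v, hsub hv⟩, l', hl', rfl⟩, ?_⟩, hsub⟩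
    intro T hT hsubT
    -- spanning affinely independent sets are maximal
    have hTind := (complex (V ρ) ω hU).indep hT
    apply Finset.eq_of_subset_of_card_le hsubT
    have h1 : (touch (V ρ) ω l').card = Fintype.card P + 1 := by
      have := (touch_indep hU hl').affineSpan_eq_top_iff_card_eq_finrank_add_one.1 (by
        rw [Subtype.range_coe]; exact hsp')
      rw [Fintype.card_coe, Module.finrank_fintype_fun_eq_card] at this
      exact this
    have h2 : T.card ≤ Fintype.card P + 1 := by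
      have := hTind.card_le_finrank_succ
      rw [Fintype.card_coe] at this
      refine this.trans ?_
      have h3 := Submodule.finrank_le (vectorSpan ℝ (Set.range ((↑) : T → (P → ℝ))))
      rw [Module.finrank_fintype_fun_eq_card] at h3
      omega
    omega
  · refine ⟨ω, fun S => ?_⟩
    rw [poly_eq]
    show IsFace (V ρ) ω S ↔ _
    unfold IsFace
    apply and_congr_right
    intro _
    apply exists_congr
    intro l
    constructor
    · rintro ⟨hl, rfl⟩
      refine ⟨fun v hv hv' => hl v (mem_V.2 ⟨hv, hv'⟩), fun v => ?_⟩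
      rw [mem_touch, mem_V]
      constructor
      · rintro ⟨⟨h1, h2⟩, h3⟩; exact ⟨h1, h2, h3⟩
      · rintro ⟨h1, h2, h3⟩; exact ⟨⟨h1, h2⟩, h3⟩
    · rintro ⟨hl, hS⟩
      refine ⟨fun v hv => hl v (mem_V.1 hv).1 (mem_V.1 hv).2, ?_⟩
      ext v
      rw [mem_touch, mem_V, hS v]
      constructor
      · rintro ⟨⟨h1, h2⟩, h3⟩; exact ⟨h1, h2, h3⟩
      · rintro ⟨h1, h2, h3⟩; exact ⟨⟨h1, h2⟩, h3⟩

end Pool.Agent.Results.MP_c39498_co.RegularUnimodular
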